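import Pool.Agent.Lib.MP_9e57f8_al.Final
import Pool.Agent.Lib.MP_9e57f8_al.Transfer

/-!
# MP_9e57f8_al, Q1: the multiplication map is not injective in general

The definitions are in `Pool/Agent/Lib/MP_9e57f8_al/Statement.lean`: `FK n` is the
Fomin–Kirillov algebra over `ℚ` (the free algebra on the ordered pairs of distinct indices modulo
the four families of relations `FKRel n`), `graphSubalgebra G` is the subalgebra generated by the
`x_{ij}` with `{i, j}` an edge of `G`, `mu G₁ G₂` is the multiplication map `a ⊗ b ↦ a b`, and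
`MulInjective G₁ G₂` says that it is injective.
-/

namespace Pool.Agent.Results.MP_9e57f8_al.NotInjective

open Pool.Agent.Lib.MP_9e57f8_al

/-- For every `n ≥ 6` there are complementary graphs `G₁, G₂` on `n` vertices for which the
multiplication map `𝓔_{G₁} ⊗ 𝓔_{G₂} → 𝓔ₙ` is not injective. -/
theorem result : ∀ n : ℕ, 6 ≤ n → ∃ G₁ G₂ : SimpleGraph (Fin n),
    IsCompl G₁ G₂ ∧ ¬ Statement.MulInjective G₁ G₂ := by
  intro n hn
  exact ⟨(G7 n)ᶜ, G7 n, isCompl_compl.symm, statement_not_injective (not_injective_G7 hn)⟩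

end Pool.Agent.Results.MP_9e57f8_al.NotInjective
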